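import Pool.Agent.Q123.PR.TrA
import Pool.Agent.Q240.PR.Stm

/-!
# Project PR (helper240), job TrX: trial functions of finite degree
-/

set_option autoImplicit false
set_option maxHeartbeats 2000000

open Complex Filter Topology Set MeasureTheory
open scoped ComplexConjugate
open Pool.Agent.H24R2.JP (XX)

namespace Pool.Agent.Q123.PR

open Pool.Agent.Y23 (TT Fa Hd N2 QQ GG mu Zt)
open Pool.Agent.Y23.G.F (Hn ek nd box)
open Pool.Agent.Q240.PR (Sm Lx S_Tr1 S_TrX)

theorem Fa_of_Sm {h : ℝ} {χ : ℝ → ℂ} (hχ : Sm h χ) : Fa h χ := by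
  have hc : Continuous χ := (hχ.1 0).continuous
  have hs : HasCompactSupport χ := by
    refine HasCompactSupport.intro (isCompact_Icc (a := -h) (b := h)) fun x hx => ?_
    rw [mem_Icc, ← abs_le, not_le] at hx
    exact hχ.2 x hx.le
  exact ⟨hc.memLp_of_hasCompactSupport hs, fun x hx => hχ.2 x hx.le⟩

theorem line_bound {h : ℝ} (hh : 0 < h) {χ : ℝ → ℂ} (hχ : Fa h χ) :
    ∃ M : ℝ, 0 < M ∧ ∀ v : ℝ, ‖TT χ (v * I)‖ ≤ M := by
  have hN := Pool.Agent.Y23.N2_nonneg χ
  refine ⟨1 + 2 * h * N2 χ, by positivity, fun v => ?_⟩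
  have h1 := Pool.Agent.Y23.norm_TT_le hh hχ (v * I)
  have h2 : ((v : ℂ) * I).re = 0 := by simp
  rw [h2, abs_zero, mul_zero, Real.exp_zero, mul_one] at h1
  nlinarith [norm_nonneg (TT χ (v * I)), sq_nonneg (‖TT χ (v * I)‖ - 1)]

theorem pow6_le {c t : ℝ} (hc : 0 < c) (hc1 : c ≤ 12) (ht : 0 ≤ t) :
    (1 + t) ^ 6 ≤ (12 / c) ^ 6 * Real.exp (c * t / 2) := by
  have h1 : 1 + t ≤ 12 / c * Real.exp (c * t / 12) := by
    have h2 := Real.add_one_le_exp (c * t / 12)
    rw [div_mul_eq_mul_div, le_div_iff₀ hc]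
    nlinarith
  have h3 := pow_le_pow_left₀ (by linarith) h1 6
  rw [mul_pow, ← Real.exp_nat_mul] at h3
  refine h3.trans (le_of_eq ?_)
  congr 2
  push_cast
  ring

/-- constants are absorbed -/
theorem absorb' (K : ℝ) {ε : ℝ} (hε : 0 < ε) :
    ∀ᶠ a : ℝ in atTop, K * a ^ 2 * Real.exp a ≤ Real.exp (ε * Real.exp (2 * a)) := by
  have h1 : Tendsto (fun a : ℝ => a ^ 2 * Real.exp (-a)) atTop (𝓝 0) := Real.tendsto_pow_mul_exp_neg_atTop_nhds_zero 2
  have h2 : ∀ᶠ a : ℝ in atTop, a ^ 2 * Real.exp (-a) < ε / (|K| + 1) := h1.eventually (gt_mem_nhds (by positivity))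
  filter_upwards [h2] with a ha
  rw [lt_div_iff₀ (by positivity)] at ha
  have h3 := Real.add_one_le_exp (ε * Real.exp (2 * a))
  have h4 : K * a ^ 2 * Real.exp a ≤ ε * Real.exp (2 * a) := by
    have e1 : Real.exp a = Real.exp (-a) * Real.exp (2 * a) := by
      rw [← Real.exp_add]
      congr 1
      ring
    have h5 : K * (a ^ 2 * Real.exp (-a)) ≤ ε := by
      have h6 : 0 ≤ a ^ 2 * Real.exp (-a) := by positivity
      have h7 := le_abs_self K
      nlinarith
    calc K * a ^ 2 * Real.exp a = K * (a ^ 2 * Real.exp (-a)) * Real.exp (2 * a) := by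
          rw [e1]
          ring
      _ ≤ _ := mul_le_mul_of_nonneg_right h5 (Real.exp_pos _).le
  linarith

theorem absorb0 (K : ℝ) {ε : ℝ} (hε : 0 < ε) :
    ∀ᶠ a : ℝ in atTop, K ≤ Real.exp (ε * Real.exp (2 * a)) := by
  filter_upwards [absorb' |K| hε, eventually_ge_atTop 1] with a h1 ha
  refine (le_abs_self K).trans (le_trans ?_ h1)
  have h2 : 1 ≤ Real.exp a := Real.one_le_exp (by linarith)
  have h3 : (1 : ℝ) ≤ a ^ 2 * Real.exp a := by nlinarith
  calc |K| = |K| * 1 := (mul_one _).symm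
    _ ≤ |K| * (a ^ 2 * Real.exp a) := mul_le_mul_of_nonneg_left h3 (abs_nonneg K)
    _ = _ := by ring

theorem neg_conj_norm (w : ℂ) : ‖-conj w‖ = ‖w‖ := by
  rw [norm_neg, RCLike.norm_conj]

/-- the form is small if the transform is small at the zeros -/
theorem QQ_small {f : ℝ → ℂ} {s : ℝ} (hs : 0 ≤ s)
    (h : ∀ ρ : Zt, ‖TT f ((ρ : ℂ) - 1 / 2)‖ ≤ s / (1 + ‖(ρ : ℂ) - 1 / 2‖) ^ 2 ∧
      ‖TT f (-conj ((ρ : ℂ) - 1 / 2))‖ ≤ s / (1 + ‖(ρ : ℂ) - 1 / 2‖) ^ 2) :
    |QQ f| ≤ s ^ 2 * ∑' ρ : Zt, (mu ρ : ℝ) * (1 / (1 + ((ρ : ℂ).im - 0) ^ 2)) := by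
  unfold QQ
  have hb : ∀ ρ : Zt, ‖(mu ρ : ℝ) * (GG f f ((ρ : ℂ) - 1 / 2)).re‖ ≤ s ^ 2 * ((mu ρ : ℝ) * (1 / (1 + ((ρ : ℂ).im - 0) ^ 2))) := by
    intro ρ
    obtain ⟨h1, h2⟩ := h ρ
    set w := (ρ : ℂ) - 1 / 2 with hw
    have hwim : w.im = (ρ : ℂ).im := by
      rw [hw]
      simp
    have hm : (0 : ℝ) ≤ mu ρ := Nat.cast_nonneg _
    rw [norm_mul, Real.norm_eq_abs, abs_of_nonneg hm, mul_left_comm]
    refine mul_le_mul_of_nonneg_left ?_ hm
    rw [Real.norm_eq_abs]
    refine (Complex.abs_re_le_norm _).trans ?_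
    unfold GG
    rw [norm_mul, RCLike.norm_conj]
    have hw0 : 0 ≤ ‖w‖ := norm_nonneg _
    calc ‖TT f w‖ * ‖TT f (-conj w)‖ ≤ (s / (1 + ‖w‖) ^ 2) * (s / (1 + ‖w‖) ^ 2) :=
          mul_le_mul h1 h2 (norm_nonneg _) (by positivity)
      _ = s ^ 2 * (1 / (1 + ‖w‖) ^ 4) := by
          field_simp
      _ ≤ s ^ 2 * (1 / (1 + ((ρ : ℂ).im - 0) ^ 2)) := by
          refine mul_le_mul_of_nonneg_left ?_ (by positivity)
          refine one_div_le_one_div_of_le (by positivity) ?_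
          rw [sub_zero, ← hwim]
          have h3 : |w.im| ≤ ‖w‖ := Complex.abs_im_le_norm w
          have h4 : (1 + |w.im|) ^ 4 ≤ (1 + ‖w‖) ^ 4 := pow_le_pow_left₀ (by positivity) (by linarith) 4
          have h5 : 1 + w.im ^ 2 ≤ (1 + |w.im|) ^ 4 := by
            rw [← sq_abs w.im]
            have h6 : 0 ≤ |w.im| := abs_nonneg _
            have h7 : (1 + |w.im|) ^ 2 ≤ (1 + |w.im|) ^ 4 := pow_le_pow_right₀ (by linarith) (by norm_num)
            nlinarith
          exact h5.trans h4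
  have hsum := (Pool.Agent.Y23.zsummable 0).mul_left (s ^ 2)
  have hs2 : Summable fun ρ : Zt => (mu ρ : ℝ) * (GG f f ((ρ : ℂ) - 1 / 2)).re := Summable.of_norm_bounded hsum hb
  rw [← Real.norm_eq_abs, ← tsum_mul_left]
  exact tsum_of_norm_bounded hsum.hasSum hb

theorem trX (hTr1 : S_Tr1) : S_TrX := by
  intro c hc
  have hpi := Real.pi_gt_three
  have hpi4 := Real.pi_lt_d2
  obtain ⟨ε, hε, hε1, hε2⟩ : ∃ ε : ℝ, 0 < ε ∧ ε ≤ 1 / 4 ∧ 7 * ε ≤ 4 * Real.pi - c := by
    refine ⟨min (1 / 4) ((4 * Real.pi - c) / 7), by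
      have : 0 < (4 * Real.pi - c) / 7 := by linarith
      positivity, min_le_left _ _, ?_⟩
    have := min_le_right (1 / 4) ((4 * Real.pi - c) / 7)
    linarith
  obtain ⟨h, p, hh, hp0, hp, hTr⟩ := hTr1 ε hε
  set φ : ℝ := (p / 2 + Real.pi / 4) / 2 with hφ
  set c1 : ℝ := φ - p / 2 with hc1
  have hc10 : 0 < c1 := by rw [hc1, hφ]; linarith
  have hc12 : c1 ≤ 12 := by rw [hc1, hφ]; linarith
  obtain ⟨CX, hCX0, hCX⟩ := Pool.Agent.Y23.Z.XX_decay (φ := φ) (by rw [hφ]; linarith) (by rw [hφ]; linarith)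
  refine ⟨h, 14 / c1, hh, by positivity, fun χ hχ => ?_⟩
  obtain ⟨T, β, D, b, hev, hlim⟩ := hTr χ hχ
  have hχF := Fa_of_Sm hχ
  obtain ⟨Mχ, hMχ0, hMχ⟩ := line_bound hh hχF
  set K6 : ℝ := (12 / c1) ^ 6 with hK6
  have hK60 : 0 < K6 := by positivity
  set KZ : ℝ := ∑' ρ : Zt, (mu ρ : ℝ) * (1 / (1 + ((ρ : ℂ).im - 0) ^ 2)) with hKZ
  have hKZ0 : 0 ≤ KZ := tsum_nonneg fun ρ => by positivity
  have hpow : ∀ v : ℝ, Real.exp (-(c1 * |v| / 2)) ≤ K6 / (1 + |v|) ^ 6 := by
    intro v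
    have h1 := pow6_le hc10 hc12 (abs_nonneg v)
    rw [le_div_iff₀ (by positivity), Real.exp_neg, inv_mul_eq_div, div_le_iff₀ (Real.exp_pos _)]
    exact h1
  -- the first term
  have hline : ∀ v : ℝ, ‖TT χ (v * I) * XX (v * I)‖ ≤ Mχ * CX * Real.exp (-(φ * |v|)) := by
    intro v
    rw [norm_mul, mul_assoc]
    exact mul_le_mul (hMχ v) (hCX v) (norm_nonneg _) hMχ0.le
  have hβχ : ∀ v : ℝ, Real.exp (p * |v| / 2) * (Mχ * CX * Real.exp (-(φ * |v|))) =
      Mχ * CX * Real.exp (-(c1 * |v|)) := by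
    intro v
    have : Real.exp (-(c1 * |v|)) = Real.exp (p * |v| / 2) * Real.exp (-(φ * |v|)) := by
      rw [← Real.exp_add]
      congr 1
      rw [hc1]
      ring
    rw [this]
    ring
  -- properties of large `a`
  have hA1 := absorb0 (Mχ * CX * K6) hε
  have hA2 := absorb' (32 * K0) hε
  have hA3 := absorb0 (4 * KZ) hε
  have hbig : ∀ᶠ a : ℝ in atTop, 1 ≤ a ∧ Mχ * CX * K6 ≤ Real.exp (ε * Real.exp (2 * a)) ∧
      32 * K0 * a ^ 2 * Real.exp a ≤ Real.exp (ε * Real.exp (2 * a)) ∧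
      4 * KZ ≤ Real.exp (ε * Real.exp (2 * a)) := by
    filter_upwards [hA1, hA2, hA3, eventually_ge_atTop 1] with a h1 h2 h3 h4
    exact ⟨h4, h1, h2, h3⟩
  have hfst : Tendsto (fun p : ℝ × ℕ => p.1) (Lx (14 / c1)) atTop := tendsto_comap.mono_left inf_le_left
  have hsnd : ∀ᶠ p : ℝ × ℕ in Lx (14 / c1), ⌈14 / c1 * p.1 * Real.exp (2 * p.1)⌉₊ ≤ p.2 :=
    mem_inf_of_right (mem_principal_self _)
  -- the main estimate
  have hmain : ∀ᶠ q : ℝ × ℕ in Lx (14 / c1), 1 ≤ q.1 ∧ 0 < b q.1 ∧ Differentiable ℂ (β q.1) ∧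
      (∀ v : ℝ, ‖β q.1 (v * I)‖ ≤ Real.exp (p * |v| / 2)) ∧
      (1 / b q.1) ^ 2 ≤ Real.exp (-((4 * Real.pi - 2 * ε) * Real.exp (2 * q.1))) ∧
      4 * KZ ≤ Real.exp (ε * Real.exp (2 * q.1)) ∧ Fa q.1 (T q.1) ∧
      ∀ w : ℂ, |w.re| ≤ 1 → ‖TT (fun x => ((b q.1 : ℂ))⁻¹ * Fn q.1 (T q.1) q.2 x) w - β q.1 w * TT χ w * XX w‖ ≤
        (1 / b q.1) * (2 * Real.exp (2 * ε * Real.exp (2 * q.1))) / (1 + ‖w‖) ^ 2 := by
    filter_upwards [hfst.eventually hev, hfst.eventually hbig, hsnd] with q hq1 hq2 hq3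
    obtain ⟨hHd, hβd, hDd, hTT, hDb, hb1, hb2, hβb⟩ := hq1
    obtain ⟨ha1, hE1, hE2, hE3⟩ := hq2
    set a := q.1 with ha
    set n := q.2 with hn
    set X := Real.exp (2 * a) with hX
    have hX0 : 0 < X := Real.exp_pos _
    have ha0 : 0 < a := by linarith
    have hb0 : 0 < b a := (Real.exp_pos _).trans_le hb1
    have hTF : Fa a (T a) := hHd.1
    have hbC : (b a : ℂ) ≠ 0 := by exact_mod_cast hb0.ne'
    -- the transform on the line
    have hTline : ∀ v : ℝ, ‖TT (T a) (v * I)‖ ≤ b a * (Mχ * CX * Real.exp (-(c1 * |v|))) +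
        Real.exp (ε * X) / (1 + |v|) ^ 6 := by
      intro v
      rw [hTT]
      refine (norm_add_le _ _).trans (add_le_add ?_ ?_)
      · have e : (b a : ℂ) * β a (v * I) * TT χ (v * I) * XX (v * I) =
            b a * (β a (v * I) * (TT χ (v * I) * XX (v * I))) := by ring
        rw [e, norm_mul, norm_mul, Complex.norm_real, Real.norm_eq_abs, abs_of_pos hb0, ← hβχ]
        refine mul_le_mul_of_nonneg_left ?_ hb0.le
        exact mul_le_mul (hβb v) (hline v) (norm_nonneg _) (Real.exp_pos _).le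
      · have h1 := hDb (v * I) (by simp)
        have h2 : ‖(v : ℂ) * I‖ = |v| := by simp
        rwa [h2] at h1
    have hM0 : 0 ≤ b a * (Mχ * CX * K6) + Real.exp (ε * X) := by positivity
    have hM : ∀ v : ℝ, ‖TT (T a) (v * I)‖ ≤ (b a * (Mχ * CX * K6) + Real.exp (ε * X)) / (1 + |v|) ^ 6 := by
      intro v
      refine (hTline v).trans ?_
      rw [add_div]
      refine add_le_add ?_ le_rfl
      have h1 : Real.exp (-(c1 * |v|)) ≤ K6 / (1 + |v|) ^ 6 := by
        refine le_trans (Real.exp_le_exp.2 ?_) (hpow v)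
        nlinarith [abs_nonneg v]
      calc b a * (Mχ * CX * Real.exp (-(c1 * |v|))) ≤ b a * (Mχ * CX * (K6 / (1 + |v|) ^ 6)) := by gcongr
        _ = _ := by ring
    have hδ : ∀ k : ℤ, n < k.natAbs → ‖TT (T a) (nd a k)‖ ≤ (2 * Real.exp (ε * X)) / (1 + ‖nd a k‖) ^ 6 := by
      intro k hk
      set v : ℝ := Real.pi * k / a with hv
      have hnd : nd a k = (v : ℂ) * I := rfl
      have hnv : ‖nd a k‖ = |v| := norm_nd a k
      rw [hnv, hnd]
      have hvl : 14 / c1 * X ≤ |v| := by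
        have h1 : 14 / c1 * a * X ≤ |(k : ℝ)| := by
          have h2 : 14 / c1 * a * X ≤ (n : ℝ) := (Nat.le_ceil _).trans (by exact_mod_cast hq3)
          have h3 : (n : ℝ) ≤ (k.natAbs : ℝ) := by exact_mod_cast hk.le
          rw [Nat.cast_natAbs, Int.cast_abs] at h3
          linarith
        rw [hv, abs_div, abs_mul, abs_of_pos Real.pi_pos, abs_of_pos ha0, le_div_iff₀ ha0]
        nlinarith [abs_nonneg (k : ℝ)]
      refine (hTline v).trans ?_
      have h1 : b a * Real.exp (-(c1 * |v|)) ≤ Real.exp (-(c1 * |v| / 2)) := by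
        have h2 : c1 * |v| / 2 ≥ 7 * X := by
          have h3 := mul_le_mul_of_nonneg_left hvl hc10.le
          have h4 : c1 * (14 / c1 * X) = 14 * X := by field_simp
          rw [h4] at h3
          linarith
        calc b a * Real.exp (-(c1 * |v|)) ≤ Real.exp ((2 * Real.pi + ε) * X) * Real.exp (-(c1 * |v|)) :=
              mul_le_mul_of_nonneg_right hb2 (Real.exp_pos _).le
          _ = Real.exp ((2 * Real.pi + ε) * X - c1 * |v|) := by
              rw [← Real.exp_add]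
              congr 1
          _ ≤ _ := by
              refine Real.exp_le_exp.2 ?_
              have h5 : (2 * Real.pi + ε) * X ≤ 7 * X := mul_le_mul_of_nonneg_right (by linarith) hX0.le
              linarith
      have h2 : b a * (Mχ * CX * Real.exp (-(c1 * |v|))) ≤ Real.exp (ε * X) / (1 + |v|) ^ 6 := by
        calc b a * (Mχ * CX * Real.exp (-(c1 * |v|))) = Mχ * CX * (b a * Real.exp (-(c1 * |v|))) := by ring
          _ ≤ Mχ * CX * (K6 / (1 + |v|) ^ 6) := by
              refine mul_le_mul_of_nonneg_left (h1.trans (hpow v)) (by positivity)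
          _ = (Mχ * CX * K6) / (1 + |v|) ^ 6 := by ring
          _ ≤ _ := div_le_div_of_nonneg_right hE1 (by positivity)
      calc _ ≤ Real.exp (ε * X) / (1 + |v|) ^ 6 + Real.exp (ε * X) / (1 + |v|) ^ 6 := add_le_add h2 le_rfl
        _ = _ := by ring
    refine ⟨ha1, hb0, hβd, hβb, ?_, hE3, hTF, fun w hw => ?_⟩
    · have h1 : 1 / b a ≤ Real.exp (-((2 * Real.pi - ε) * X)) := by
        rw [Real.exp_neg, one_div]
        exact inv_anti₀ (Real.exp_pos _) hb1
      calc (1 / b a) ^ 2 ≤ (Real.exp (-((2 * Real.pi - ε) * X))) ^ 2 := pow_le_pow_left₀ (by positivity) h1 2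
        _ = _ := by
            rw [← Real.exp_nat_mul]
            congr 1
            push_cast
            ring
    · have htail := tail_bound ha1 hTF hM0 hM (by positivity) hδ w
      have h1 : 16 * K0 * a ^ 2 * (2 * Real.exp (ε * X)) * Real.exp (a * |w.re|) ≤ Real.exp (2 * ε * X) := by
        have h2 : Real.exp (a * |w.re|) ≤ Real.exp a := Real.exp_le_exp.2 (by nlinarith)
        have hK0 := K0_nonneg
        calc 16 * K0 * a ^ 2 * (2 * Real.exp (ε * X)) * Real.exp (a * |w.re|) ≤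
              16 * K0 * a ^ 2 * (2 * Real.exp (ε * X)) * Real.exp a := by gcongr
          _ = (32 * K0 * a ^ 2 * Real.exp a) * Real.exp (ε * X) := by ring
          _ ≤ Real.exp (ε * X) * Real.exp (ε * X) := mul_le_mul_of_nonneg_right hE2 (Real.exp_pos _).le
          _ = _ := by
              rw [← Real.exp_add]
              congr 1
              ring
      have h3 : ‖TT (T a) w - TT (Fn a (T a) n) w‖ ≤ Real.exp (2 * ε * X) / (1 + ‖w‖) ^ 2 :=
        htail.trans (div_le_div_of_nonneg_right h1 (by positivity))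
      have h4 : ‖D a w‖ ≤ Real.exp (2 * ε * X) / (1 + ‖w‖) ^ 2 := by
        refine (hDb w hw).trans ?_
        refine div_le_div₀ (Real.exp_pos _).le (Real.exp_le_exp.2 ?_) (by positivity) ?_
        · nlinarith
        · exact pow_le_pow_right₀ (by linarith [norm_nonneg w]) (by norm_num)
      rw [Pool.Agent.Y23.TT_smul]
      have e : (b a : ℂ)⁻¹ * TT (Fn a (T a) n) w - β a w * TT χ w * XX w =
          (b a : ℂ)⁻¹ * (D a w - (TT (T a) w - TT (Fn a (T a) n) w)) := by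
        rw [hTT w]
        field_simp
        ring
      rw [e, norm_mul, norm_inv, Complex.norm_real, Real.norm_eq_abs, abs_of_pos hb0]
      calc (b a)⁻¹ * ‖D a w - (TT (T a) w - TT (Fn a (T a) n) w)‖ ≤
            (b a)⁻¹ * (Real.exp (2 * ε * X) / (1 + ‖w‖) ^ 2 + Real.exp (2 * ε * X) / (1 + ‖w‖) ^ 2) := by
            refine mul_le_mul_of_nonneg_left ((norm_sub_le _ _).trans (add_le_add h4 h3)) (by positivity)
        _ = _ := by
            rw [one_div]
            ring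
  -- the differences on the line
  set G1 : ℝ → ℝ → ℝ := fun a v => (1 + v ^ 2) * ‖(β a (v * I) - 1) * (TT χ (v * I) * XX (v * I))‖ ^ 2 with hG1
  set Kb : ℝ := 4 * (Mχ * CX) ^ 2 * K6 with hKb
  have hKb0 : 0 < Kb := by positivity
  have hG1b : ∀ a : ℝ, (∀ v : ℝ, ‖β a (v * I)‖ ≤ Real.exp (p * |v| / 2)) → ∀ v : ℝ, G1 a v ≤ Kb * (1 + v ^ 2)⁻¹ := by
    intro a hβb v
    have hv0 := abs_nonneg v
    have h1 : ‖β a (v * I) - 1‖ ≤ 2 * Real.exp (p * |v| / 2) := by
      refine (norm_sub_le _ _).trans ?_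
      rw [norm_one]
      have : 1 ≤ Real.exp (p * |v| / 2) := Real.one_le_exp (by positivity)
      linarith [hβb v]
    have h2 : ‖(β a (v * I) - 1) * (TT χ (v * I) * XX (v * I))‖ ≤ 2 * (Mχ * CX * Real.exp (-(c1 * |v|))) := by
      rw [norm_mul, ← hβχ]
      calc ‖β a (v * I) - 1‖ * ‖TT χ (v * I) * XX (v * I)‖ ≤
            (2 * Real.exp (p * |v| / 2)) * (Mχ * CX * Real.exp (-(φ * |v|))) :=
            mul_le_mul h1 (hline v) (norm_nonneg _) (by positivity)
        _ = _ := by ring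
    have h3 := pow_le_pow_left₀ (norm_nonneg _) h2 2
    have h4 : (Real.exp (-(c1 * |v|))) ^ 2 ≤ K6 / (1 + |v|) ^ 6 := by
      refine le_trans ?_ (hpow v)
      rw [← Real.exp_nat_mul]
      refine Real.exp_le_exp.2 ?_
      push_cast
      nlinarith
    have h5 : (1 + v ^ 2) ^ 2 ≤ (1 + |v|) ^ 6 := by
      have h6 : 1 + v ^ 2 ≤ (1 + |v|) ^ 2 := by
        rw [← sq_abs v]
        nlinarith
      calc (1 + v ^ 2) ^ 2 ≤ ((1 + |v|) ^ 2) ^ 2 := pow_le_pow_left₀ (by positivity) h6 2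
        _ = (1 + |v|) ^ 4 := by ring
        _ ≤ _ := pow_le_pow_right₀ (by linarith) (by norm_num)
    simp only [hG1]
    calc (1 + v ^ 2) * ‖(β a (v * I) - 1) * (TT χ (v * I) * XX (v * I))‖ ^ 2 ≤
          (1 + v ^ 2) * (2 * (Mχ * CX * Real.exp (-(c1 * |v|)))) ^ 2 := mul_le_mul_of_nonneg_left h3 (by positivity)
      _ = (1 + v ^ 2) * (4 * (Mχ * CX) ^ 2) * (Real.exp (-(c1 * |v|))) ^ 2 := by ring
      _ ≤ (1 + v ^ 2) * (4 * (Mχ * CX) ^ 2) * (K6 / (1 + |v|) ^ 6) := mul_le_mul_of_nonneg_left h4 (by positivity)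
      _ = Kb * ((1 + v ^ 2) / (1 + |v|) ^ 6) := by
          rw [hKb]
          ring
      _ ≤ Kb * (1 + v ^ 2)⁻¹ := by
          refine mul_le_mul_of_nonneg_left ?_ hKb0.le
          rw [div_le_iff₀ (by positivity), inv_mul_eq_div, le_div_iff₀ (by positivity)]
          nlinarith
  have hint1 : Integrable fun v : ℝ => Kb * (1 + v ^ 2)⁻¹ := integrable_inv_one_add_sq.const_mul Kb
  have hχc : Continuous fun v : ℝ => TT χ (v * I) := (Pool.Agent.Y23.differentiable_TT hχF).continuous.comp (by fun_prop)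
  have hXc : Continuous fun v : ℝ => XX (v * I) := Pool.Agent.Y23.XX_diff.continuous.comp (by fun_prop)
  have hG1c : ∀ a : ℝ, Differentiable ℂ (β a) → Continuous (G1 a) := by
    intro a hβd
    have hβc : Continuous fun v : ℝ => β a (v * I) := hβd.continuous.comp (by fun_prop)
    simp only [hG1]
    exact (continuous_const.add (continuous_id.pow 2)).mul (((hβc.sub continuous_const).mul (hχc.mul hXc)).norm.pow 2)
  have hG1int : ∀ a : ℝ, Differentiable ℂ (β a) → (∀ v : ℝ, ‖β a (v * I)‖ ≤ Real.exp (p * |v| / 2)) →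
      Integrable (G1 a) := by
    intro a hβd hβb
    refine hint1.mono' (hG1c a hβd).aestronglyMeasurable (Eventually.of_forall fun v => ?_)
    rw [Real.norm_of_nonneg (by simp only [hG1]; positivity)]
    exact hG1b a hβb v
  have hG1lim : Tendsto (fun a => ∫ v : ℝ, G1 a v) atTop (𝓝 0) := by
    have h1 : Tendsto (fun a => ∫ v : ℝ, G1 a v) atTop (𝓝 (∫ _ : ℝ, (0 : ℝ))) := by
      refine tendsto_integral_filter_of_dominated_convergence (fun v : ℝ => Kb * (1 + v ^ 2)⁻¹) ?_ ?_ hint1 ?_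
      · filter_upwards [hev] with a ha
        exact (hG1c a ha.2.1).aestronglyMeasurable
      · filter_upwards [hev] with a ha
        refine Eventually.of_forall fun v => ?_
        rw [Real.norm_of_nonneg (by simp only [hG1]; positivity)]
        exact hG1b a ha.2.2.2.2.2.2.2 v
      · refine Eventually.of_forall fun v => ?_
        have h2 := (((hlim v).sub_const 1).mul_const (TT χ (v * I) * XX (v * I))).norm.pow 2 |>.const_mul (1 + v ^ 2)
        simp only [sub_self, zero_mul, norm_zero, ne_eq, OfNat.ofNat_ne_zero, not_false_eq_true, zero_pow,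
          mul_zero] at h2
        exact h2
    simpa using h1
  -- the total difference
  set η : ℝ → ℝ := fun a => 8 * ((1 / b a) ^ 2 * Real.exp (4 * ε * Real.exp (2 * a))) with hη
  have hG : ∀ᶠ q : ℝ × ℕ in Lx (14 / c1), ∀ v : ℝ,
      (1 + v ^ 2) * ‖TT (fun x => ((b q.1 : ℂ))⁻¹ * Fn q.1 (T q.1) q.2 x) (v * I) - XX (v * I) * TT χ (v * I)‖ ^ 2 ≤
        2 * G1 q.1 v + η q.1 * (1 + v ^ 2)⁻¹ := by
    filter_upwards [hmain] with q hq
    obtain ⟨ha1, hb0, hβd, hβb, hb2, hE3, hTF, hw⟩ := hq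
    intro v
    set a := q.1 with ha
    set X := Real.exp (2 * a) with hX
    have h1 := hw (v * I) (by simp)
    have h2 : ‖(v : ℂ) * I‖ = |v| := by simp
    rw [h2] at h1
    set A := TT (fun x => ((b a : ℂ))⁻¹ * Fn a (T a) q.2 x) (v * I) with hA
    have e : A - XX (v * I) * TT χ (v * I) = (β a (v * I) - 1) * (TT χ (v * I) * XX (v * I)) +
        (A - β a (v * I) * TT χ (v * I) * XX (v * I)) := by ring
    rw [e]
    have h3 := Pool.Agent.Y23.sq_add_le' ((β a (v * I) - 1) * (TT χ (v * I) * XX (v * I)))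
      (A - β a (v * I) * TT χ (v * I) * XX (v * I))
    have h4 := pow_le_pow_left₀ (norm_nonneg _) h1 2
    have hv0 := abs_nonneg v
    have h5 : (1 + v ^ 2) * ((1 / b a) * (2 * Real.exp (2 * ε * X)) / (1 + |v|) ^ 2) ^ 2 ≤
        4 * ((1 / b a) ^ 2 * Real.exp (4 * ε * X)) * (1 + v ^ 2)⁻¹ := by
      have e1 : Real.exp (4 * ε * X) = Real.exp (2 * ε * X) ^ 2 := by
        rw [← Real.exp_nat_mul]
        congr 1
        push_cast
        ring
      rw [e1]
      have h6 : (1 + v ^ 2) / (1 + |v|) ^ 4 ≤ (1 + v ^ 2)⁻¹ := by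
        rw [div_le_iff₀ (by positivity), inv_mul_eq_div, le_div_iff₀ (by positivity)]
        have h7 : 1 + v ^ 2 ≤ (1 + |v|) ^ 2 := by
          rw [← sq_abs v]
          nlinarith
        calc (1 + v ^ 2) * (1 + v ^ 2) ≤ (1 + |v|) ^ 2 * (1 + |v|) ^ 2 :=
              mul_le_mul h7 h7 (by positivity) (by positivity)
          _ = _ := by ring
      calc (1 + v ^ 2) * ((1 / b a) * (2 * Real.exp (2 * ε * X)) / (1 + |v|) ^ 2) ^ 2 =
            4 * ((1 / b a) ^ 2 * Real.exp (2 * ε * X) ^ 2) * ((1 + v ^ 2) / (1 + |v|) ^ 4) := by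
            have e2 : ((1 + |v|) ^ 2) ^ 2 = (1 + |v|) ^ 4 := by ring
            rw [div_pow, e2]
            ring
        _ ≤ _ := mul_le_mul_of_nonneg_left h6 (by positivity)
    have h6 : (1 + v ^ 2) * ‖A - β a (v * I) * TT χ (v * I) * XX (v * I)‖ ^ 2 ≤
        4 * ((1 / b a) ^ 2 * Real.exp (4 * ε * X)) * (1 + v ^ 2)⁻¹ :=
      (mul_le_mul_of_nonneg_left h4 (by positivity)).trans h5
    have h7 := mul_le_mul_of_nonneg_left h3 (show 0 ≤ 1 + v ^ 2 by positivity)
    simp only [hG1, hη]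
    refine h7.trans ?_
    linarith
  have hTTc : ∀ q : ℝ × ℕ, Fa q.1 (T q.1) → 1 ≤ q.1 → Continuous fun v : ℝ =>
      (1 + v ^ 2) * ‖TT (fun x => ((b q.1 : ℂ))⁻¹ * Fn q.1 (T q.1) q.2 x) (v * I) - XX (v * I) * TT χ (v * I)‖ ^ 2 := by
    intro q _ hq
    have h1 : Fa q.1 (fun x => ((b q.1 : ℂ))⁻¹ * Fn q.1 (T q.1) q.2 x) :=
      ((Fn_Hn (by linarith) (T q.1) q.2).1).smul _
    have h2 : Continuous fun v : ℝ => TT (fun x => ((b q.1 : ℂ))⁻¹ * Fn q.1 (T q.1) q.2 x) (v * I) :=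
      (Pool.Agent.Y23.differentiable_TT h1).continuous.comp (by fun_prop)
    exact (continuous_const.add (continuous_id.pow 2)).mul ((h2.sub (hXc.mul hχc)).norm.pow 2)
  refine ⟨fun q x => ((b q.1 : ℂ))⁻¹ * Fn q.1 (T q.1) q.2 x, ?_, ?_⟩
  · filter_upwards [hmain, hG] with q hq hGq
    obtain ⟨ha1, hb0, hβd, hβb, hb2, hE3, hTF, hw⟩ := hq
    have hHn : Hn q.1 (q.2 : ℕ∞) (fun x => ((b q.1 : ℂ))⁻¹ * Fn q.1 (T q.1) q.2 x) :=
      (Fn_Hn (by linarith) (T q.1) q.2).smul _
    refine ⟨hHn, ?_, ?_⟩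
    · -- the form
      set a := q.1 with ha
      set X := Real.exp (2 * a) with hX
      have hX0 : 0 < X := Real.exp_pos _
      set s : ℝ := (1 / b a) * (2 * Real.exp (2 * ε * X)) with hs
      have hs0 : 0 ≤ s := by positivity
      have hz : ∀ w : ℂ, |w.re| ≤ 1 / 2 → XX w = 0 →
          ‖TT (fun x => ((b a : ℂ))⁻¹ * Fn a (T a) q.2 x) w‖ ≤ s / (1 + ‖w‖) ^ 2 := by
        intro w hw1 hw2
        have h1 := hw w (by linarith)
        rw [hw2, mul_zero, sub_zero] at h1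
        exact h1
      have hQ := QQ_small (f := fun x => ((b a : ℂ))⁻¹ * Fn a (T a) q.2 x) hs0 fun ρ => by
        have h1 : XX ((ρ : ℂ) - 1 / 2) = 0 := (Pool.Agent.Y23.isZ_iff ρ).1 ρ.2
        have h2 := Pool.Agent.Y23.half_re ρ
        refine ⟨hz _ h2 h1, ?_⟩
        have h3 : XX (-conj ((ρ : ℂ) - 1 / 2)) = 0 := by
          rw [← Pool.Agent.Y23.rfZ_sub]
          exact (Pool.Agent.Y23.isZ_iff _).1 (Pool.Agent.Y23.rfZ ρ).2
        have h4 := hz (-conj ((ρ : ℂ) - 1 / 2)) (by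
          rw [Complex.neg_re, Complex.conj_re, abs_neg]
          exact h2) h3
        rwa [neg_conj_norm] at h4
      refine hQ.trans ?_
      rw [← hKZ]
      have h5 : s ^ 2 * KZ = ((1 / b a) ^ 2) * (4 * KZ) * Real.exp (4 * ε * X) := by
        have e1 : Real.exp (4 * ε * X) = Real.exp (2 * ε * X) ^ 2 := by
          rw [← Real.exp_nat_mul]
          congr 1
          push_cast
          ring
        rw [hs, e1]
        ring
      rw [h5]
      calc ((1 / b a) ^ 2) * (4 * KZ) * Real.exp (4 * ε * X) ≤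
            Real.exp (-((4 * Real.pi - 2 * ε) * X)) * Real.exp (ε * X) * Real.exp (4 * ε * X) := by
            refine mul_le_mul_of_nonneg_right ?_ (Real.exp_pos _).le
            exact mul_le_mul hb2 hE3 (by positivity) (Real.exp_pos _).le
        _ = Real.exp ((7 * ε - 4 * Real.pi) * X) := by
            rw [← Real.exp_add, ← Real.exp_add]
            congr 1
            ring
        _ ≤ _ := by
            refine Real.exp_le_exp.2 ?_
            nlinarith
    · have h1 : Integrable fun v : ℝ => 2 * G1 q.1 v + η q.1 * (1 + v ^ 2)⁻¹ :=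
        ((hG1int q.1 hβd hβb).const_mul 2).add (integrable_inv_one_add_sq.const_mul _)
      refine h1.mono' (hTTc q hTF ha1).aestronglyMeasurable (Eventually.of_forall fun v => ?_)
      rw [Real.norm_of_nonneg (by positivity)]
      exact hGq v
  · -- the limit
    have hηlim : Tendsto (fun q : ℝ × ℕ => η q.1) (Lx (14 / c1)) (𝓝 0) := by
      have h1 : Tendsto (fun a : ℝ => 8 * Real.exp (-Real.exp (2 * a))) atTop (𝓝 0) := by
        have h2 : Tendsto (fun a : ℝ => Real.exp (2 * a)) atTop atTop :=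
          Real.tendsto_exp_atTop.comp (tendsto_id.const_mul_atTop (by norm_num : (0 : ℝ) < 2))
        have h3 := (Real.tendsto_exp_neg_atTop_nhds_zero.comp h2).const_mul 8
        rw [mul_zero] at h3
        exact h3
      refine squeeze_zero' ?_ ?_ (h1.comp hfst)
      · filter_upwards with q
        simp only [hη]
        positivity
      · filter_upwards [hmain] with q hq
        obtain ⟨ha1, hb0, hβd, hβb, hb2, hE3, hTF, hw⟩ := hq
        simp only [hη, Function.comp]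
        set X := Real.exp (2 * q.1) with hX
        have hX0 : 0 < X := Real.exp_pos _
        refine mul_le_mul_of_nonneg_left ?_ (by norm_num)
        calc (1 / b q.1) ^ 2 * Real.exp (4 * ε * X) ≤ Real.exp (-((4 * Real.pi - 2 * ε) * X)) * Real.exp (4 * ε * X) :=
              mul_le_mul_of_nonneg_right hb2 (Real.exp_pos _).le
          _ = Real.exp ((6 * ε - 4 * Real.pi) * X) := by
              rw [← Real.exp_add]
              congr 1
              ring
          _ ≤ _ := by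
              refine Real.exp_le_exp.2 ?_
              nlinarith
    have hsq : Tendsto (fun q : ℝ × ℕ => 2 * (∫ v : ℝ, G1 q.1 v) + η q.1 * ∫ v : ℝ, (1 + v ^ 2)⁻¹) (Lx (14 / c1)) (𝓝 0) := by
      have h1 := ((hG1lim.comp hfst).const_mul 2).add (hηlim.mul_const (∫ v : ℝ, (1 + v ^ 2)⁻¹))
      simp only [mul_zero, zero_mul, add_zero] at h1
      exact h1
    refine squeeze_zero' ?_ ?_ hsq
    · filter_upwards with q
      exact integral_nonneg fun v => by positivity
    · filter_upwards [hmain, hG] with q hq hGq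
      obtain ⟨ha1, hb0, hβd, hβb, hb2, hE3, hTF, hw⟩ := hq
      have h1 : Integrable fun v : ℝ => 2 * G1 q.1 v := (hG1int q.1 hβd hβb).const_mul 2
      have h2 : Integrable fun v : ℝ => η q.1 * (1 + v ^ 2)⁻¹ := integrable_inv_one_add_sq.const_mul _
      rw [← integral_const_mul, ← integral_const_mul, ← integral_add h1 h2]
      refine integral_mono_of_nonneg (Eventually.of_forall fun v => by positivity) (h1.add h2)
        (Eventually.of_forall hGq)

end Pool.Agent.Q123.PR
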